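import Mathlib
import Pool.Agent.Lib.MP_203158_an.Final

/-!
# A self-similar set with a singular projection almost all of whose slices have infinite
# packing measure

`K = C × C`, where `C` is the set of all `∑ 8^{-i-1} a_i` with `a_i ∈ {0,1,2,3}`, so that
`dim K = 4/3`.  The direction is generic in the sense of Baire.
-/

set_option autoImplicit false

open MeasureTheory
open scoped ENNReal

namespace Pool.Agent.Results.MP_203158_an.SingularProjection

/-- There is a rotation and reflection free self-similar set `K` in the plane with the strong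
separation condition and `dim K = s > 1`, and an orthogonal projection `π x = ⟪e, x⟫` onto a line
with `H¹(π K) > 0`, such that the projection of `H^s|_K` is singular and
`P^{s-1}(K ∩ π⁻¹{t}) = ∞` for almost every `t ∈ π K`. -/
theorem result :
    ∃ (ι : Type) (_ : Fintype ι) (ρ : ι → ℝ) (w : ι → EuclideanSpace ℝ (Fin 2))
      (K : Set (EuclideanSpace ℝ (Fin 2))) (s : ℝ) (e : EuclideanSpace ℝ (Fin 2)),
      (∀ j, 0 < ρ j ∧ ρ j < 1) ∧
      IsCompact K ∧ K.Nonempty ∧
      K = ⋃ j, (fun x => ρ j • x + w j) '' K ∧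
      (∀ i j, i ≠ j →
        Disjoint ((fun x => ρ i • x + w i) '' K) ((fun x => ρ j • x + w j) '' K)) ∧
      1 < s ∧ dimH K = ENNReal.ofReal s ∧ 0 < μH[s] K ∧ μH[s] K < ∞ ∧
      ‖e‖ = 1 ∧
      0 < volume ((fun x => inner ℝ e x) '' K) ∧
      (Measure.map (fun x => inner ℝ e x) ((μH[s]).restrict K)) ⟂ₘ volume ∧
      ∀ᵐ t : ℝ, t ∈ (fun x => inner ℝ e x) '' K →
        Pool.Agent.Lib.MP_203158_an.packingMeasure (s - 1)
          (K ∩ (fun x => inner ℝ e x) ⁻¹' {t}) = ∞ :=
  Pool.Agent.Lib.MP_203158_an.main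

end Pool.Agent.Results.MP_203158_an.SingularProjection
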